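import Pool.Agent.K7.H80.EC.Stm

/-!
# Project EC (MP_fb8df7_pr), job IND
-/

set_option autoImplicit false

namespace Pool.Agent.K7.H54.ECIND

open Finset

variable {α : Type} [Fintype α]

/-- `t` comes before all other elements of `U` -/
def Fst (U : Finset α) (σ : Fin (Fintype.card α) ≃ α) (t : α) : Prop :=
  ∀ f ∈ U, f ≠ t → σ.symm t < σ.symm f

theorem exists_fst (U : Finset α) (hU : U.Nonempty) (σ : Fin (Fintype.card α) ≃ α) :
    ∃ t ∈ U, Fst U σ t := by
  obtain ⟨t, ht, hmin⟩ := U.exists_min_image σ.symm hU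
  refine ⟨t, ht, fun f hf hne => ?_⟩
  have h1 := hmin f hf
  have h2 : σ.symm t ≠ σ.symm f := fun h => hne (σ.symm.injective h).symm
  exact lt_of_le_of_ne h1 h2

open Classical in
theorem fst_swap (U : Finset α) (σ : Fin (Fintype.card α) ≃ α) (e t : α) (he : e ∈ U)
    (h : Fst U σ t) : Fst U (σ.trans (Equiv.swap e t)) e := by
  intro f hf hne
  have h1 : (σ.trans (Equiv.swap e t)).symm e = σ.symm t := by
    rw [Equiv.symm_trans_apply, Equiv.symm_swap, Equiv.swap_apply_left]
  rw [h1]
  by_cases hft : f = t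
  · have h2 : (σ.trans (Equiv.swap e t)).symm f = σ.symm e := by
      rw [Equiv.symm_trans_apply, Equiv.symm_swap, hft, Equiv.swap_apply_right]
    rw [h2]
    exact h e he (fun h3 => hne (hft.trans h3.symm))
  · have h2 : (σ.trans (Equiv.swap e t)).symm f = σ.symm f := by
      rw [Equiv.symm_trans_apply, Equiv.symm_swap, Equiv.swap_apply_of_ne_of_ne hne hft]
    rw [h2]
    exact h f hf hft

open Classical in
theorem fst_inv (W : Finset α) (σ : Fin (Fintype.card α) ≃ α) (e t x : α) (he : e ∉ W)
    (ht : t ∉ W) (hx : x ∈ W) : Fst W (σ.trans (Equiv.swap e t)) x ↔ Fst W σ x := by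
  have h1 : ∀ y ∈ W, (σ.trans (Equiv.swap e t)).symm y = σ.symm y := by
    intro y hy
    rw [Equiv.symm_trans_apply, Equiv.symm_swap, Equiv.swap_apply_of_ne_of_ne]
    · rintro rfl
      exact he hy
    · rintro rfl
      exact ht hy
  unfold Fst
  constructor
  · intro h f hf hne
    have := h f hf hne
    rwa [h1 x hx, h1 f hf] at this
  · intro h f hf hne
    rw [h1 x hx, h1 f hf]
    exact h f hf hne

open Classical in
/-- JOB IND -/
theorem t : Pool.Agent.K7.H80.EC.StInd := by
  intro α _ C T s hs
  induction C using Finset.induction_on with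
  | empty =>
    intro _ _ _
    simp
  | insert e D heD ih =>
    intro hmem hcard hdisj
    have ih' := ih (fun x hx => hmem x (mem_insert_of_mem hx))
      (fun x hx => hcard x (mem_insert_of_mem hx))
      (fun x hx y hy => hdisj x (mem_insert_of_mem hx) y (mem_insert_of_mem hy))
    have heT := hmem e (mem_insert_self e D)
    have heC := hcard e (mem_insert_self e D)
    -- the sets
    set Bad : Finset (Fin (Fintype.card α) ≃ α) := univ.filter fun σ =>
      ∀ x ∈ D, ¬ ∀ f ∈ T x, f ≠ x → σ.symm x < σ.symm f with hBad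
    have hB : ∀ t ∈ T e, (Bad.filter fun σ => Fst (T e) σ t).card ≤
        (Bad.filter fun σ => Fst (T e) σ e).card := by
      intro t ht
      apply Finset.card_le_card_of_injOn (fun σ => σ.trans (Equiv.swap e t))
      · intro σ hσ
        have hσ' := Finset.mem_filter.1 (Finset.mem_coe.1 hσ)
        obtain ⟨h1, h2⟩ := hσ'
        rw [hBad, Finset.mem_filter] at h1
        refine Finset.mem_coe.2 (Finset.mem_filter.2 ⟨?_, fst_swap (T e) σ e t heT h2⟩)
        rw [hBad, Finset.mem_filter]
        refine ⟨Finset.mem_univ _, fun x hx h3 => h1.2 x hx ?_⟩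
        have hne : e ≠ x := by
          rintro rfl
          exact heD hx
        have hd := hdisj e (mem_insert_self e D) x (mem_insert_of_mem hx) hne
        have h4 : e ∉ T x := fun h => Finset.disjoint_left.1 hd heT h
        have h5 : t ∉ T x := fun h => Finset.disjoint_left.1 hd ht h
        exact (fst_inv (T x) σ e t x h4 h5 (hmem x (mem_insert_of_mem hx))).1 h3
      · intro σ _ τ _ h
        have h' : σ.trans (Equiv.swap e t) = τ.trans (Equiv.swap e t) := h
        ext i
        have := congrArg (fun g => g i) h'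
        simpa using this
    have hcov : Bad.card ≤ (T e).card * (Bad.filter fun σ => Fst (T e) σ e).card := by
      refine le_trans (Finset.card_le_card ?_)
        (Finset.card_biUnion_le_card_mul (T e) (fun t => Bad.filter fun σ => Fst (T e) σ t)
          (Bad.filter fun σ => Fst (T e) σ e).card hB)
      intro σ hσ
      obtain ⟨t, ht, hf⟩ := exists_fst (T e) ⟨e, heT⟩ σ
      exact Finset.mem_biUnion.2 ⟨t, ht, Finset.mem_filter.2 ⟨hσ, hf⟩⟩
    have hsplit := Finset.card_filter_add_card_filter_not (s := Bad) (fun σ => Fst (T e) σ e)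
    have hsub : (univ.filter fun σ : Fin (Fintype.card α) ≃ α =>
        ∀ x ∈ insert e D, ¬ ∀ f ∈ T x, f ≠ x → σ.symm x < σ.symm f) ⊆
        Bad.filter fun σ => ¬ Fst (T e) σ e := by
      intro σ hσ
      rw [Finset.mem_filter] at hσ
      refine Finset.mem_filter.2 ⟨?_, hσ.2 e (mem_insert_self e D)⟩
      rw [hBad, Finset.mem_filter]
      exact ⟨Finset.mem_univ _, fun x hx => hσ.2 x (mem_insert_of_mem hx)⟩
    have h1 := Finset.card_le_card hsub
    set b := (Bad.filter fun σ => Fst (T e) σ e).card with hb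
    set c := (Bad.filter fun σ => ¬ Fst (T e) σ e).card with hc
    have hs0 : (0 : ℝ) < s := by exact_mod_cast hs
    have hs1 : (1 : ℝ) ≤ s := by exact_mod_cast hs
    have h2 : (Bad.card : ℝ) ≤ s * b := by
      have : Bad.card ≤ s * b := hcov.trans (Nat.mul_le_mul_right _ heC)
      exact_mod_cast this
    have h3 : (b : ℝ) + c = Bad.card := by exact_mod_cast hsplit
    have h4 : (c : ℝ) ≤ (1 - 1 / (s : ℝ)) * Bad.card := by
      have h5 : (Bad.card : ℝ) / s ≤ b := by
        rw [div_le_iff₀ hs0]
        linarith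
      have h6 : (1 - 1 / (s : ℝ)) * Bad.card = Bad.card - Bad.card / s := by
        field_simp
      rw [h6]
      linarith
    have h7 : 0 ≤ 1 - 1 / (s : ℝ) := by
      have : 1 / (s : ℝ) ≤ 1 := by
        rw [div_le_one hs0]
        exact hs1
      linarith
    rw [Finset.card_insert_of_notMem heD, pow_succ]
    refine (Nat.cast_le.2 h1).trans (h4.trans ?_)
    calc (1 - 1 / (s : ℝ)) * Bad.card
        ≤ (1 - 1 / (s : ℝ)) * ((1 - 1 / (s : ℝ)) ^ D.card *
          (Fintype.card (Fin (Fintype.card α) ≃ α) : ℝ)) := mul_le_mul_of_nonneg_left ih' h7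
      _ = _ := by ring

end Pool.Agent.K7.H54.ECIND
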