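import Pool.Agent.K7.H81.PD.Stm3

/-!
# Project PD (MP_7504ef_an), job BAL: balls
-/

set_option autoImplicit false

namespace Pool.Agent.K7.H54.PDBAL

open Pool.Agent.K7.H81.PD
open scoped ContDiff

theorem contDiff_poly {N : ℕ} {q : E N → ℝ} (hq : IsPoly q) : ContDiff ℝ ∞ q := by
  obtain ⟨P, hP⟩ := hq
  have h : q = fun x : E N => MvPolynomial.eval (fun i => x i) P := funext hP
  rw [h]
  clear h hP
  induction P using MvPolynomial.induction_on with
  | C a =>
    simp only [MvPolynomial.eval_C]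
    exact contDiff_const
  | add p q hp hq =>
    simp only [map_add]
    exact hp.add hq
  | mul_X p i hp =>
    simp only [map_mul, MvPolynomial.eval_X]
    have h1 : ContDiff ℝ ∞ fun x : E N => x i := by
      exact (EuclideanSpace.proj i : E N →L[ℝ] ℝ).contDiff
    exact hp.mul h1

theorem pd_sub {N : ℕ} (i : Fin N) (F : E N → ℝ) (c x : E N) :
    pd i (fun y => F (y - c)) x = pd i F (x - c) := by
  unfold pd
  have h : (fun y => F (y - c)) = fun y => F (y + -c) := by
    funext y
    rw [sub_eq_add_neg]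
  rw [h, fderiv_comp_add_right, sub_eq_add_neg]

theorem lap_sub {N : ℕ} (F : E N → ℝ) (c x : E N) :
    lap (fun y => F (y - c)) x = lap F (x - c) := by
  unfold lap
  refine Finset.sum_congr rfl fun i _ => ?_
  have h : pd i (fun y => F (y - c)) = fun y => pd i F (y - c) := by
    funext y
    exact pd_sub i F c y
  rw [h, pd_sub]

/-- JOB BAL -/
theorem t : StBal := by
  intro hFis hWei hMax N c R hN hR φ hφ ε hε
  have hcont : Continuous fun y : E N => -φ (y + c) := by
    have := hφ.continuous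
    fun_prop
  obtain ⟨p, hp, hpe⟩ := hWei N R ε (fun y => -φ (y + c)) hcont hε
  obtain ⟨q, hq, hqe⟩ := hFis hMax N R p hN hR hp
  refine ⟨fun x => (R ^ 2 - ‖x - c‖ ^ 2) * q (x - c), ⟨?_, ?_⟩, ?_⟩
  · have h1 : ContDiff ℝ ∞ fun x : E N => x - c := contDiff_id.sub contDiff_const
    have h2 : ContDiff ℝ ∞ fun x : E N => ‖x - c‖ ^ 2 := h1.norm_sq ℝ
    have h3 : ContDiff ℝ ∞ fun x : E N => q (x - c) := (contDiff_poly hq).comp h1
    exact (contDiff_const.sub h2).mul h3
  · intro x hx
    rw [frontier_ball c hR.ne'] at hx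
    have h1 : ‖x - c‖ = R := by
      rw [← dist_eq_norm]
      exact hx
    show (R ^ 2 - ‖x - c‖ ^ 2) * q (x - c) = 0
    rw [h1]
    ring
  · intro x hx
    have h1 : ‖x - c‖ ≤ R := by
      rw [← dist_eq_norm]
      exact (Metric.mem_ball.1 hx).le
    have h2 := lap_sub (fun y => (R ^ 2 - ‖y‖ ^ 2) * q y) c x
    have h3 := hpe (x - c) h1
    have h4 : lap (fun x => (R ^ 2 - ‖x - c‖ ^ 2) * q (x - c)) x = p (x - c) := by
      rw [← hqe (x - c)]
      exact h2
    rw [h4]
    have h5 : x - c + c = x := sub_add_cancel x c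
    simp only [h5] at h3
    have h6 : p (x - c) + φ x = p (x - c) - -φ x := by ring
    rw [h6]
    exact h3

end Pool.Agent.K7.H54.PDBAL
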