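import Pool.Agent.K7.H81.PD.Stm

/-!
# Project PD (MP_7504ef_an), job LPC: the Laplacian of a composition
-/

set_option autoImplicit false

namespace Pool.Agent.K7.H54.PDLPC

open Pool.Agent.K7.H81.PD
open scoped ContDiff

theorem contDiff_pd {N : ℕ} (i : Fin N) {f : E N → ℝ} (hf : ContDiff ℝ ∞ f) :
    ContDiff ℝ ∞ (pd i f) := by
  unfold pd
  exact (hf.fderiv_right (m := ∞) (by simp)).clm_apply contDiff_const

theorem contDiff_deriv {p : ℝ → ℝ} (hp : ContDiff ℝ ∞ p) : ContDiff ℝ ∞ (deriv p) :=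
  (contDiff_infty_iff_deriv.1 hp).2

theorem pd_comp {N : ℕ} (i : Fin N) {p : ℝ → ℝ} {f : E N → ℝ} (y : E N) (hp : ContDiff ℝ ∞ p)
    (hf : ContDiff ℝ ∞ f) : pd i (fun z => p (f z)) y = deriv p (f y) * pd i f y := by
  have h1 : HasDerivAt p (deriv p (f y)) (f y) := (hp.differentiable (by simp) (f y)).hasDerivAt
  have h2 : HasFDerivAt f (fderiv ℝ f y) y := (hf.differentiable (by simp) y).hasFDerivAt
  have h3 := h1.comp_hasFDerivAt y h2
  have h4 : fderiv ℝ (fun z => p (f z)) y = deriv p (f y) • fderiv ℝ f y := h3.fderiv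
  unfold pd
  rw [h4]
  simp

theorem pd_mul {N : ℕ} (i : Fin N) {f g : E N → ℝ} (y : E N) (hf : ContDiff ℝ ∞ f)
    (hg : ContDiff ℝ ∞ g) : pd i (fun z => f z * g z) y = f y * pd i g y + g y * pd i f y := by
  have h1 : HasFDerivAt f (fderiv ℝ f y) y := (hf.differentiable (by simp) y).hasFDerivAt
  have h2 : HasFDerivAt g (fderiv ℝ g y) y := (hg.differentiable (by simp) y).hasFDerivAt
  have h3 : fderiv ℝ (fun z => f z * g z) y = f y • fderiv ℝ g y + g y • fderiv ℝ f y :=
    (h1.mul h2).fderiv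
  unfold pd
  rw [h3]
  simp

/-- JOB LPC -/
theorem t : StLpc := by
  intro N p f x hp hf
  unfold lap
  have h1 : ∀ i : Fin N, pd i (pd i fun y => p (f y)) x =
      deriv p (f x) * pd i (pd i f) x + deriv (deriv p) (f x) * pd i f x ^ 2 := by
    intro i
    have h2 : (pd i fun y => p (f y)) = fun y => deriv p (f y) * pd i f y := by
      funext y
      exact pd_comp i y hp hf
    rw [h2, pd_mul i (f := fun y => deriv p (f y)) x ((contDiff_deriv hp).comp hf)
        (contDiff_pd i hf),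
      pd_comp i x (contDiff_deriv hp) hf]
    ring
  rw [Finset.sum_congr rfl fun i _ => h1 i, Finset.sum_add_distrib, ← Finset.mul_sum,
    ← Finset.mul_sum]

end Pool.Agent.K7.H54.PDLPC
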